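import Pool.Agent.L0h7.MS.Stm

set_option autoImplicit false

namespace Pool.Agent.L0h71.MS

open Pool.Agent.L0h7.MS

theorem finite_of_fg (α : Type) (h : Group.FG (FreeGroup α)) : Finite α := by
  classical
  let f : FreeGroup α →* Multiplicative (α →₀ ℤ) :=
    FreeGroup.lift fun a => Multiplicative.ofAdd (Finsupp.single a 1)
  have hf : Function.Surjective f := by
    intro x
    have key : ∀ y : α →₀ ℤ, ∃ w : FreeGroup α, f w = Multiplicative.ofAdd y := by
      intro y
      induction y using Finsupp.induction_linear with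
      | zero => exact ⟨1, by simp⟩
      | add y z hy hz =>
        obtain ⟨u, hu⟩ := hy
        obtain ⟨v, hv⟩ := hz
        exact ⟨u * v, by rw [map_mul, hu, hv, ofAdd_add]⟩
      | single a n =>
        refine ⟨(FreeGroup.of a) ^ n, ?_⟩
        rw [map_zpow]
        simp only [f, FreeGroup.lift_apply_of]
        rw [← ofAdd_zsmul, Finsupp.smul_single, smul_eq_mul, mul_one]
    exact key (Multiplicative.toAdd x)
  have h1 : Group.FG (Multiplicative (α →₀ ℤ)) := Group.fg_of_surjective hf
  have h2 : AddGroup.FG (α →₀ ℤ) := by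
    rw [AddGroup.fg_iff_mul_fg]; exact h1
  have h3 : Module.Finite ℤ (α →₀ ℤ) := Module.Finite.iff_addGroup_fg.2 h2
  exact Module.Finite.finite_basis (Finsupp.basisSingleOne (R := ℤ) (ι := α))

theorem t_RSF : S_RSF := by
  intro r E hE
  have h1 : Group.FG E := by
    haveI := hE
    infer_instance
  have e : E ≃* FreeGroup (IsFreeGroup.Generators E) := IsFreeGroup.toFreeGroup E
  have h2 : Group.FG (FreeGroup (IsFreeGroup.Generators E)) :=
    Group.fg_of_surjective (f := e.toMonoidHom) e.surjective
  haveI := finite_of_fg _ h2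
  exact Group.IsFinitelyPresented.equiv e.symm

end Pool.Agent.L0h71.MS
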