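import Pool.Agent.L0h7.MS.Stm

set_option autoImplicit false

namespace Pool.Agent.L0h71.MS

open Pool.Agent.L0h7.MS

theorem fg_of_fp (G : Type) [Group G] (h : Group.IsFinitelyPresented G) : Group.FG G := by
  obtain ⟨n, φ, hφ, _⟩ := h.out
  exact Group.fg_of_surjective (f := φ) hφ

theorem finite_ab (G : Type) [Group G] (h : Group.FG G) (n : ℕ) (hn : 1 ≤ n)
    (hG : ∀ g : G, g ^ n = 1) : Finite (Abelianization G) := by
  have h1 : Group.FG (Abelianization G) :=
    Group.fg_of_surjective (f := (Abelianization.of : G →* Abelianization G))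
      (QuotientGroup.mk'_surjective _)
  have h2 : IsMulTorsion (Abelianization G) := by
    intro x
    have hs : Function.Surjective (Abelianization.of : G →* Abelianization G) :=
      QuotientGroup.mk'_surjective _
    obtain ⟨g, rfl⟩ := hs x
    refine isOfFinOrder_iff_pow_eq_one.2 ⟨n, hn, ?_⟩
    rw [← map_pow, hG, map_one]
  exact CommGroup.finite_of_fg_isMulTorsion (Abelianization G) h2

theorem t_TWO : S_RSG → S_EXT → S_PRW → S_WRE → S_TWO := by
  intro hR hE hP hW G _ hG hinf hT
  obtain ⟨n, hn, hGn⟩ := hT
  have hfg := fg_of_fp G hG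
  have hab := finite_ab G hfg n hn hGn
  have hci : (commutator G).FiniteIndex := by
    have : Finite (G ⧸ commutator G) := hab
    exact Subgroup.finiteIndex_of_finite_quotient
  obtain ⟨m, H, _, K, hm, hKn, hKi, ⟨e⟩, hgen, hpow⟩ := hW G hfg hab
  have h1 : Group.IsFinitelyPresented (commutator G) := hR G hG _ hci
  have h2 : Group.IsFinitelyPresented (Fin m → commutator G) := hP _ h1 m
  have h3 : Group.IsFinitelyPresented K := Group.IsFinitelyPresented.equiv e.symm
  have h4 : Group.IsFinitelyPresented H := hE H K hKn hKi h3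
  have h5 : Infinite (commutator G) := by
    by_contra hc
    rw [not_infinite_iff_finite] at hc
    have : Finite (G ⧸ commutator G) := hab
    have : Finite G := by
      have e2 := Subgroup.groupEquivQuotientProdSubgroup (s := commutator G)
      exact Finite.of_equiv _ e2.symm
    exact not_finite G
  have h6 : Infinite (Fin m → commutator G) := by
    have : Nonempty (Fin m) := ⟨⟨0, hm⟩⟩
    exact Pi.infinite_of_right
  have h7 : Infinite K := Infinite.of_injective _ e.symm.injective
  have h8 : Infinite H := Infinite.of_injective _ K.subtype_injective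
  exact ⟨H, _, h4, h8, ⟨n * m, Nat.mul_pos hn hm, hpow n hGn⟩, hgen⟩

end Pool.Agent.L0h71.MS
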